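import Pool.Agent.V8H42.TV.Core

/-!
Open mapping theorem for Polish groups.
-/

set_option autoImplicit false

namespace Pool.Agent.V8H83.TX

open Set Filter Topology
open Function (Surjective Injective)

theorem open_map {G W : Type} [TopologicalSpace G] [Group G] [IsTopologicalGroup G] [PolishSpace G]
    [TopologicalSpace W] [Group W] [IsTopologicalGroup W] [PolishSpace W] (q : G →* W)
    (hq : Continuous q) (hqs : Surjective q) : IsOpenMap q := by
  rw [IsTopologicalGroup.isOpenMap_iff_nhds_one]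
  intro S hS
  rw [Filter.mem_map] at hS
  obtain ⟨V, hV, hVS⟩ := exists_nhds_split_inv hS
  obtain ⟨O, hOV, hO, h1O⟩ := mem_nhds_iff.1 hV
  obtain ⟨u, hu, hAu⟩ := Pool.Agent.V8H42.TV.analytic_baire (hO.analyticSet_image hq)
  obtain ⟨D, hDc, hDd⟩ := TopologicalSpace.exists_countable_dense G
  -- left translations preserve residual sets
  have hres : ∀ (w : W) {P : W → Prop}, (∀ᶠ x in residual W, P x) →
      ∀ᶠ x in residual W, P (w⁻¹ * x) := by
    intro w P hP
    exact (tendsto_residual_of_isOpenMap (continuous_const_mul w⁻¹)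
      (isOpenMap_mul_left w⁻¹)).eventually hP
  -- `u` is nonempty
  have hune : u.Nonempty := by
    by_contra hc
    rw [Set.not_nonempty_iff_eq_empty] at hc
    subst hc
    have h1 : ∀ᶠ x in residual W, ∀ d ∈ D, (q d)⁻¹ * x ∉ q '' O := by
      rw [eventually_countable_ball hDc]
      intro d _
      have h2 : ∀ᶠ x in residual W, x ∉ q '' O := by
        filter_upwards [hAu] with x hx hxA
        exact (hx.1 hxA)
      exact hres (q d) h2
    obtain ⟨x, hx⟩ := (dense_of_mem_residual h1).nonempty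
    obtain ⟨g, rfl⟩ := hqs x
    -- choose `d ∈ D` with `d⁻¹ * g ∈ O`
    have h3 : IsOpen {d : G | d⁻¹ * g ∈ O} :=
      hO.preimage (continuous_inv.mul continuous_const)
    obtain ⟨d, hdO, hdD⟩ := hDd.inter_open_nonempty _ h3 ⟨g, by simpa using h1O⟩ |>.imp
      (fun d hd => hd)
    refine hx d hdD ⟨d⁻¹ * g, hdO, ?_⟩
    rw [map_mul, map_inv]
  obtain ⟨y, hy⟩ := hune
  have h4 : ∀ᶠ w in 𝓝 (1 : W), w⁻¹ * y ∈ u := by
    have h5 : Tendsto (fun w : W => w⁻¹ * y) (𝓝 1) (𝓝 ((1 : W)⁻¹ * y)) :=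
      (continuous_inv.mul continuous_const).tendsto 1
    apply h5.eventually
    rw [inv_one, one_mul]
    exact hu.mem_nhds hy
  filter_upwards [h4] with w hw
  have h6 : IsOpen (u ∩ {x : W | w⁻¹ * x ∈ u}) :=
    hu.inter (hu.preimage (continuous_const_mul w⁻¹))
  have h7 : ∀ᶠ x in residual W, (x ∈ q '' O ↔ x ∈ u) ∧ (w⁻¹ * x ∈ q '' O ↔ w⁻¹ * x ∈ u) :=
    hAu.and (hres w hAu)
  obtain ⟨x, hx1, hx2⟩ := (dense_of_mem_residual h7).inter_open_nonempty _ h6 ⟨y, hy, hw⟩
  obtain ⟨a, ha, hax⟩ := hx2.1.2 hx1.1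
  obtain ⟨b, hb, hbx⟩ := hx2.2.2 hx1.2
  have h8 : w = q (a / b) := by
    rw [map_div, hax, hbx, div_eq_mul_inv, mul_inv_rev, inv_inv, mul_inv_cancel_left]
  rw [h8]
  exact hVS a (hOV ha) b (hOV hb)

end Pool.Agent.V8H83.TX
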